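import Pool.Agent.V11134.Cov.Defs
import Pool.Agent.V11134.RB.Arcs

/-!
# The colouring: several grids of colours
-/

set_option autoImplicit false

namespace Pool.Agent.V11134.Cov

open Finset Pool.Agent.V11134.RB

/-- Many vertices have their residue in a given set. -/
theorem count_residues (n M : ℕ) (hM : 0 < M) (R : Finset (Fin M)) :
    R.card * (n / M) ≤
      (univ.filter (fun v : Fin n => (⟨v.val % M, Nat.mod_lt _ hM⟩ : Fin M) ∈ R)).card := by
  have hlt : ∀ (ρ : Fin M) (k : Fin (n / M)), ρ.val + M * k.val < n := by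
    intro ρ k
    have h1 : M * (k.val + 1) ≤ M * (n / M) := Nat.mul_le_mul_left _ k.2
    have h2 : M * (n / M) ≤ n := Nat.mul_div_le n M
    have h3 := ρ.2
    have h4 : M * (k.val + 1) = M * k.val + M := by ring
    omega
  have h : (R ×ˢ (univ : Finset (Fin (n / M)))).card ≤
      (univ.filter (fun v : Fin n => (⟨v.val % M, Nat.mod_lt _ hM⟩ : Fin M) ∈ R)).card := by
    refine Finset.card_le_card_of_injOn (fun q => ⟨q.1.val + M * q.2.val, hlt q.1 q.2⟩) ?_ ?_
    · rintro ⟨ρ, k⟩ hq
      rw [Finset.mem_coe, Finset.mem_product] at hq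
      refine Finset.mem_filter.2 ⟨Finset.mem_univ _, ?_⟩
      have : (⟨(ρ.val + M * k.val) % M, Nat.mod_lt _ hM⟩ : Fin M) = ρ := by
        apply Fin.ext
        simp only [Nat.add_mul_mod_self_left]
        exact Nat.mod_eq_of_lt ρ.2
      simp only [this]
      exact hq.1
    · rintro ⟨ρ, k⟩ _ ⟨ρ', k'⟩ _ h
      simp only [Fin.mk.injEq] at h
      have h1 : ρ.val = ρ'.val := by
        have := congrArg (· % M) h
        simp only [Nat.add_mul_mod_self_left] at this
        rwa [Nat.mod_eq_of_lt ρ.2, Nat.mod_eq_of_lt ρ'.2] at this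
      have h2 : M * k.val = M * k'.val := by omega
      have h3 : k.val = k'.val := Nat.eq_of_mul_eq_mul_left hM h2
      rw [Fin.ext h1, Fin.ext h3]
  rw [Finset.card_product, Finset.card_univ, Fintype.card_fin] at h
  exact h

section

variable {m q n r : ℕ}

/-- Types of vertices: an `h`-subset of the `m` grids and a point in every grid. -/
abbrev Ty (m q h : ℕ) : Type := {J : Finset (Fin m) // J.card = h} × (Fin m → Fin q × Fin q)

/-- The missed types of a set of colours. -/
def missedTy {h : ℕ} (S : Finset (Fin m × (Fin q × Fin q))) : Finset (Ty m q h) :=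
  univ.filter (fun y => ∀ i ∈ y.1.1, (∀ b, (i, ((y.2 i).1, b)) ∉ S) ∧
    (∀ a, (i, (a, (y.2 i).2)) ∉ S))

/-- The number of missed types is large. -/
theorem card_missedTy {h : ℕ} (hq : 0 < q) (S : Finset (Fin m × (Fin q × Fin q)))
    (hh : (2 * S.card) / q + h ≤ m) :
    ((q : ℝ) ^ 2) ^ m * Real.exp (-(4 * (S.card : ℝ) / q)) ≤
      ((missedTy (h := h) S).card : ℝ) := by
  classical
  have hq' : (0 : ℝ) < q := by exact_mod_cast hq
  set Si : Fin m → Finset (Fin q × Fin q) := fun i => univ.filter (fun p => (i, p) ∈ S) with hSi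
  have hsum : ∑ i, (Si i).card ≤ S.card := by
    rw [← Finset.card_sigma]
    refine Finset.card_le_card_of_injOn (fun x => (x.1, x.2)) ?_ ?_
    · rintro ⟨i, p⟩ hx
      exact (Finset.mem_filter.1 (Finset.mem_sigma.1 (Finset.mem_coe.1 hx)).2).2
    · rintro ⟨i, p⟩ _ ⟨i', p'⟩ _ hx
      simp only [Prod.mk.injEq] at hx
      obtain ⟨rfl, rfl⟩ := hx
      rfl
  set bad : Finset (Fin m) := univ.filter (fun i => q < 2 * (Si i).card) with hbad
  have hbadcard : bad.card ≤ 2 * S.card / q := by
    rw [Nat.le_div_iff_mul_le hq]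
    have h1 : bad.card * q ≤ ∑ i ∈ bad, 2 * (Si i).card := by
      rw [← smul_eq_mul]
      exact Finset.card_nsmul_le_sum _ _ _ (fun i hi => (Finset.mem_filter.1 hi).2.le)
    have h2 : ∑ i ∈ bad, 2 * (Si i).card ≤ ∑ i, 2 * (Si i).card :=
      Finset.sum_le_sum_of_subset (Finset.subset_univ _)
    have h3 : ∑ i, 2 * (Si i).card = 2 * ∑ i, (Si i).card := (Finset.mul_sum _ _ _).symm
    omega
  have hgood : h ≤ (badᶜ).card := by
    rw [Finset.card_compl, Fintype.card_fin]
    omega
  obtain ⟨J, hJ, hJcard⟩ := Finset.exists_subset_card_eq hgood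
  -- good points in each grid
  set good : Fin m → Finset (Fin q × Fin q) := fun i =>
    if i ∈ J then ((Si i).image Prod.fst)ᶜ ×ˢ ((Si i).image Prod.snd)ᶜ else univ with hgood'
  have hgoodcard : ∀ i, (q : ℝ) ^ 2 * Real.exp (-(4 * ((Si i).card : ℝ) / q)) ≤
      ((good i).card : ℝ) := by
    intro i
    by_cases hi : i ∈ J
    · have h1 : good i = ((Si i).image Prod.fst)ᶜ ×ˢ ((Si i).image Prod.snd)ᶜ := if_pos hi
      rw [h1, Finset.card_product, Finset.card_compl, Finset.card_compl, Fintype.card_fin]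
      have hnb : 2 * (Si i).card ≤ q := by
        have := hJ hi
        rw [Finset.mem_compl, hbad, Finset.mem_filter, not_and, not_lt] at this
        exact this (Finset.mem_univ _)
      have ha : ((Si i).image Prod.fst).card ≤ (Si i).card := Finset.card_image_le
      have hb : ((Si i).image Prod.snd).card ≤ (Si i).card := Finset.card_image_le
      have hc : (q - (Si i).card) * (q - (Si i).card) ≤
          (q - ((Si i).image Prod.fst).card) * (q - ((Si i).image Prod.snd).card) :=
        Nat.mul_le_mul (by omega) (by omega)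
      refine le_trans ?_ (Nat.cast_le.2 hc)
      rw [Nat.cast_mul, Nat.cast_sub (by omega)]
      obtain ⟨x, hx⟩ : ∃ x : ℝ, x = ((Si i).card : ℝ) / q := ⟨_, rfl⟩
      have hx0 : 0 ≤ x := by rw [hx]; exact div_nonneg (Nat.cast_nonneg _) hq'.le
      have hx1 : x ≤ 1 / 2 := by
        rw [hx, div_le_iff₀ hq']
        have : ((2 * (Si i).card : ℕ) : ℝ) ≤ (q : ℝ) := by exact_mod_cast hnb
        push_cast at this
        linarith
      have hcard : ((Si i).card : ℝ) = q * x := by
        rw [hx, ← mul_div_assoc, mul_div_cancel_left₀ _ hq'.ne']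
      have hexp : Real.exp (-(2 * x)) ≤ 1 - x := by
        have h2 : (1 + 2 * x) ≤ Real.exp (2 * x) := by
          have := Real.add_one_le_exp (2 * x)
          linarith
        rw [Real.exp_neg, inv_le_comm₀ (Real.exp_pos _) (by linarith)]
        refine le_trans ?_ h2
        rw [inv_le_iff_one_le_mul₀ (by linarith)]
        nlinarith
      have h4 : -(4 * ((Si i).card : ℝ) / q) = -(2 * x) + -(2 * x) := by
        rw [mul_div_assoc, ← hx]; ring
      rw [h4, Real.exp_add, hcard]
      have h5 : 0 ≤ Real.exp (-(2 * x)) := (Real.exp_pos _).le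
      have h6 : (q : ℝ) ^ 2 * (Real.exp (-(2 * x)) * Real.exp (-(2 * x))) ≤
          (q : ℝ) ^ 2 * ((1 - x) * (1 - x)) :=
        mul_le_mul_of_nonneg_left (mul_le_mul hexp hexp h5 (by linarith)) (by positivity)
      refine h6.trans (le_of_eq ?_)
      ring
    · have h1 : good i = univ := if_neg hi
      rw [h1, Finset.card_univ, Fintype.card_prod, Fintype.card_fin, Nat.cast_mul]
      have : Real.exp (-(4 * ((Si i).card : ℝ) / q)) ≤ 1 := by
        rw [Real.exp_le_one_iff, neg_nonpos]
        exact div_nonneg (mul_nonneg (by norm_num) (Nat.cast_nonneg _)) hq'.le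
      nlinarith [sq_nonneg (q : ℝ)]
  -- embed the product of the good sets
  have hemb : (Fintype.piFinset good).card ≤ (missedTy (h := h) S).card := by
    refine Finset.card_le_card_of_injOn (fun y => (⟨J, hJcard⟩, y)) ?_ ?_
    · intro y hy
      refine Finset.mem_filter.2 ⟨Finset.mem_univ _, ?_⟩
      intro i hi
      have h1 := Fintype.mem_piFinset.1 (Finset.mem_coe.1 hy) i
      have h2 : good i = ((Si i).image Prod.fst)ᶜ ×ˢ ((Si i).image Prod.snd)ᶜ := if_pos hi
      rw [h2, Finset.mem_product, Finset.mem_compl, Finset.mem_compl] at h1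
      constructor
      · intro b hb
        apply h1.1
        exact Finset.mem_image.2 ⟨((y i).1, b), Finset.mem_filter.2 ⟨Finset.mem_univ _, hb⟩, rfl⟩
      · intro a ha
        apply h1.2
        exact Finset.mem_image.2 ⟨(a, (y i).2), Finset.mem_filter.2 ⟨Finset.mem_univ _, ha⟩, rfl⟩
    · intro y _ y' _ hyy
      simpa using hyy
  refine le_trans ?_ (Nat.cast_le.2 hemb)
  rw [Fintype.card_piFinset, Nat.cast_prod]
  calc ((q : ℝ) ^ 2) ^ m * Real.exp (-(4 * (S.card : ℝ) / q))
      ≤ ((q : ℝ) ^ 2) ^ m * Real.exp (∑ i, -(4 * ((Si i).card : ℝ) / q)) := by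
        refine mul_le_mul_of_nonneg_left (Real.exp_le_exp.2 ?_) (by positivity)
        rw [Finset.sum_neg_distrib, neg_le_neg_iff, ← Finset.sum_div, ← Finset.mul_sum]
        refine div_le_div_of_nonneg_right ?_ hq'.le
        have : ((∑ i, (Si i).card : ℕ) : ℝ) ≤ (S.card : ℝ) := by exact_mod_cast hsum
        push_cast at this
        linarith
    _ = ∏ i : Fin m, ((q : ℝ) ^ 2 * Real.exp (-(4 * ((Si i).card : ℝ) / q))) := by
        rw [Finset.prod_mul_distrib, Finset.prod_const, Finset.card_univ, Fintype.card_fin,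
          Real.exp_sum]
    _ ≤ ∏ i : Fin m, ((good i).card : ℝ) :=
        Finset.prod_le_prod (fun i _ => by positivity) (fun i _ => hgoodcard i)

end

end Pool.Agent.V11134.Cov
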