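import Mathlib

/-!
# Vertices covered by `s` of `r` colours: definitions
-/

set_option autoImplicit false

namespace Pool.Agent.V11134.Cov

/-- The vertices of `K_n` covered by the set `S` of colours: the vertices `v` such that some edge
`vw`, `w ≠ v`, has its colour in `S`. (The values of `c` on the diagonal of `Sym2` play no role.) -/
def covered {n r : ℕ} (c : Sym2 (Fin n) → Fin r) (S : Finset (Fin r)) : Finset (Fin n) :=
  Finset.univ.filter (fun v => ∃ w, w ≠ v ∧ c s(v, w) ∈ S)

/-- `g n r s` is the largest integer `m` such that for every colouring of the edges of `K_n` with colours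
from a set of `r` colours some set of `s` colours covers at least `m` vertices. -/
noncomputable def g (n r s : ℕ) : ℕ :=
  sSup {m : ℕ | ∀ c : Sym2 (Fin n) → Fin r, ∃ S : Finset (Fin r), S.card = s ∧
    m ≤ (covered c S).card}

end Pool.Agent.V11134.Cov
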