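import Pool.Agent.V11134.Cov.Construct

/-!
# The upper bound on `g n r s`
-/

set_option autoImplicit false

namespace Pool.Agent.V11134.Cov

open Finset Pool.Agent.V11134.RB

/-- The colouring: for `u < v` a common grid `i` of the types of `u` and `v` is chosen and the edge gets
the colour in row `a_i(u)` and column `b_i(v)` of this grid. If the type of `v` is missed by the set of
colours then `v` is not covered. -/
theorem exists_colouring {m q h n r : ℕ} (hm : m < 2 * h)
    (ι : Fin m × (Fin q × Fin q) → Fin r) (ty : Fin n → Ty m q h) :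
    ∃ c : Sym2 (Fin n) → Fin r, ∀ S : Finset (Fin r), ∀ v,
      ty v ∈ missedTy (h := h) (univ.filter (fun x => ι x ∈ S)) → v ∉ covered c S := by
  classical
  have hint : ∀ u v, ((ty u).1.1 ∩ (ty v).1.1).Nonempty := by
    intro u v
    by_contra hne
    rw [Finset.not_nonempty_iff_eq_empty, ← Finset.disjoint_iff_inter_eq_empty] at hne
    have h1 := Finset.card_union_of_disjoint hne
    rw [(ty u).1.2, (ty v).1.2] at h1
    have h2 := Finset.card_le_univ ((ty u).1.1 ∪ (ty v).1.1)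
    rw [Fintype.card_fin] at h2
    omega
  set grid : Fin n → Fin n → Fin m := fun u v => (hint u v).choose with hgrid
  have hgrid1 : ∀ u v, grid u v ∈ (ty u).1.1 := fun u v =>
    (Finset.mem_inter.1 (hint u v).choose_spec).1
  have hgrid2 : ∀ u v, grid u v ∈ (ty v).1.1 := fun u v =>
    (Finset.mem_inter.1 (hint u v).choose_spec).2
  have hasym : ∀ u v : Fin n, u < v → ¬ v < u := fun u v h h' => lt_asymm h h'
  set col : Fin n → Fin n → Fin r := fun u v =>
    ι (grid u v, (((ty u).2 (grid u v)).1, ((ty v).2 (grid u v)).2)) with hcol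
  refine ⟨lc (· < ·) col, ?_⟩
  intro S v hv hcov
  obtain ⟨w, hw, hS⟩ := (Finset.mem_filter.1 hcov).2
  have hv' := (Finset.mem_filter.1 hv).2
  rcases lt_or_gt_of_ne hw with hlt | hlt
  · rw [Sym2.eq_swap, lc_eq hasym col hlt] at hS
    exact (hv' _ (hgrid2 w v)).2 _ (Finset.mem_filter.2 ⟨Finset.mem_univ _, hS⟩)
  · rw [lc_eq hasym col hlt] at hS
    exact (hv' _ (hgrid1 v w)).1 _ (Finset.mem_filter.2 ⟨Finset.mem_univ _, hS⟩)

/-- The real inequality. -/
theorem real_ineq {s r q Q M n : ℝ} (hs : 0 < s) (hr : 0 < r) (hq : 0 < q) (hM : 0 < M)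
    (hn : 0 ≤ n) (hqlow : r ≤ q * (16 * s)) (h1 : r ≤ s ^ 2)
    (hMle : M ≤ Real.exp (4 * s / q + 2) * Q) :
    Real.exp (-133 * s ^ 2 / r) * n ≤ (Q * Real.exp (-(4 * s / q))) * (n / (2 * M)) := by
  have hsq : s / q ≤ 16 * (s ^ 2 / r) := by
    rw [← mul_div_assoc, div_le_div_iff₀ hq hr]
    nlinarith
  have hone : 1 ≤ s ^ 2 / r := by
    rw [le_div_iff₀ hr]
    linarith
  have h3 : Real.exp (-(4 * s / q + 2)) ≤ Q / M := by
    rw [le_div_iff₀ hM, Real.exp_neg, inv_mul_le_iff₀ (Real.exp_pos _)]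
    exact hMle
  have h4 : (Q * Real.exp (-(4 * s / q))) * (n / (2 * M)) =
      (Q / M) * Real.exp (-(4 * s / q)) * (n / 2) := by
    field_simp
  rw [h4]
  have h5 : Real.exp (-(4 * s / q + 2)) * Real.exp (-(4 * s / q)) * (n / 2) ≤
      (Q / M) * Real.exp (-(4 * s / q)) * (n / 2) :=
    mul_le_mul_of_nonneg_right (mul_le_mul_of_nonneg_right h3 (Real.exp_pos _).le) (by positivity)
  refine le_trans ?_ h5
  have h6 : Real.exp (-1) ≤ 1 / 2 := by
    rw [Real.exp_neg, inv_eq_one_div]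
    refine one_div_le_one_div_of_le (by norm_num) ?_
    have := Real.add_one_le_exp (1 : ℝ)
    linarith
  have h7 : Real.exp (-(4 * s / q + 2)) * Real.exp (-(4 * s / q)) * Real.exp (-1) * n ≤
      Real.exp (-(4 * s / q + 2)) * Real.exp (-(4 * s / q)) * (n / 2) := by
    have : Real.exp (-1) * n ≤ n / 2 := by nlinarith
    rw [mul_assoc]
    exact mul_le_mul_of_nonneg_left this (by positivity)
  refine le_trans ?_ h7
  rw [← Real.exp_add, ← Real.exp_add]
  refine mul_le_mul_of_nonneg_right (Real.exp_le_exp.2 ?_) hn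
  have h8 : 4 * s / q = 4 * (s / q) := by ring
  have h10 : -133 * s ^ 2 / r = -133 * (s ^ 2 / r) := by ring
  rw [h8, h10]
  linarith

/-- The number of types. -/
theorem card_types (k q h : ℕ) (hq : 0 < q) (s : ℕ) (hkq : k * q ≤ 2 * s) :
    ((Fintype.card (Ty (2 * k + 1) q h) : ℕ) : ℝ) ≤
      Real.exp (4 * (s : ℝ) / q + 2) * ((q : ℝ) ^ 2) ^ (2 * k + 1) := by
  have hqR : (0 : ℝ) < q := by exact_mod_cast hq
  have hMcard : Fintype.card (Ty (2 * k + 1) q h) = (2 * k + 1).choose h * (q * q) ^ (2 * k + 1) := by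
    rw [Fintype.card_prod, Fintype.card_pi]
    simp
  rw [hMcard, Nat.cast_mul, Nat.cast_pow, Nat.cast_mul, ← sq]
  refine mul_le_mul_of_nonneg_right ?_ (by positivity)
  have h3 : (2 * k + 1).choose h ≤ 2 ^ (2 * k + 1) := Nat.choose_le_two_pow _ _
  have h4 : (((2 * k + 1).choose h : ℕ) : ℝ) ≤ (2 : ℝ) ^ (2 * k + 1) := by exact_mod_cast h3
  refine h4.trans ?_
  have h5 : (2 : ℝ) ≤ Real.exp 1 := by
    have := Real.add_one_le_exp (1 : ℝ)
    linarith
  have h6 : (2 : ℝ) ^ (2 * k + 1) ≤ Real.exp 1 ^ (2 * k + 1) :=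
    pow_le_pow_left₀ (by norm_num) h5 _
  refine h6.trans ?_
  rw [← Real.exp_nat_mul, mul_one, Real.exp_le_exp]
  have h7 : ((k : ℕ) : ℝ) * q ≤ 2 * s := by exact_mod_cast hkq
  have h8 : ((k : ℕ) : ℝ) ≤ 2 * (s : ℝ) / q := by
    rw [le_div_iff₀ hqR]
    exact h7
  have h10 : 4 * (s : ℝ) / q = 2 * (2 * (s : ℝ) / q) := by ring
  rw [h10]
  push_cast
  linarith

theorem g_le_aux {r s q k : ℕ} (hs : 1 ≤ s) (hsr : s ≤ r) (hqpos : 0 < q)
    (hkq : k * q ≤ 2 * s) (hk : 2 * s / q ≤ k) (hmr : (2 * k + 1) * (q * q) ≤ r)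
    (hqlow : r ≤ q * (16 * s)) (h1 : r ≤ s ^ 2) :
    ∃ n0 : ℕ, ∀ n ≥ n0, (g n r s : ℝ) ≤ (1 - Real.exp (-133 * (s : ℝ) ^ 2 / r)) * n := by
  classical
  obtain ⟨ι⟩ : Nonempty (Fin (2 * k + 1) × (Fin q × Fin q) ↪ Fin r) := by
    apply Function.Embedding.nonempty_of_card_le
    simpa using hmr
  have hMle := card_types k q (k + 1) hqpos s hkq
  obtain ⟨M, hM⟩ : ∃ M, M = Fintype.card (Ty (2 * k + 1) q (k + 1)) := ⟨_, rfl⟩
  have hMpos : 0 < M := by
    have hMcard : M = (2 * k + 1).choose (k + 1) * (q * q) ^ (2 * k + 1) := by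
      rw [hM, Fintype.card_prod, Fintype.card_pi]
      simp
    rw [hMcard]
    exact Nat.mul_pos (Nat.choose_pos (by omega)) (pow_pos (Nat.mul_pos hqpos hqpos) _)
  rw [← hM] at hMle
  refine ⟨M, fun n hn => ?_⟩
  let eT : Fin M ≃ Ty (2 * k + 1) q (k + 1) := (Fintype.equivFinOfCardEq hM.symm).symm
  let ty : Fin n → Ty (2 * k + 1) q (k + 1) := fun v => eT ⟨v.val % M, Nat.mod_lt _ hMpos⟩
  obtain ⟨c, hc⟩ := exists_colouring (h := k + 1) (by omega) ι ty
  -- every set of `s` colours misses many vertices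
  have hmiss : ∀ S : Finset (Fin r), S.card = s →
      ((covered c S).card : ℝ) ≤ (1 - Real.exp (-133 * (s : ℝ) ^ 2 / r)) * n := by
    intro S hS
    obtain ⟨S', hS'⟩ : ∃ S' : Finset (Fin (2 * k + 1) × (Fin q × Fin q)),
      S' = univ.filter (fun x => ι x ∈ S) := ⟨_, rfl⟩
    have hS'card : S'.card ≤ s := by
      rw [← hS]
      refine Finset.card_le_card_of_injOn ι ?_ (fun x _ y _ hxy => ι.injective hxy)
      intro x hx
      rw [hS'] at hx
      exact (Finset.mem_filter.1 hx).2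
    have hS'h : 2 * S'.card / q + (k + 1) ≤ 2 * k + 1 := by
      have : 2 * S'.card / q ≤ 2 * s / q := Nat.div_le_div_right (by omega)
      omega
    have hcard := card_missedTy (h := k + 1) hqpos S' hS'h
    obtain ⟨R, hR⟩ : ∃ R : Finset (Fin M),
      R = univ.filter (fun ρ => eT ρ ∈ missedTy (h := k + 1) S') := ⟨_, rfl⟩
    have hRcard : R.card = (missedTy (h := k + 1) S').card := by
      rw [hR]
      refine Finset.card_bij (fun ρ _ => eT ρ) ?_ ?_ ?_
      · intro ρ hρ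
        exact (Finset.mem_filter.1 hρ).2
      · intro ρ _ ρ' _ hρ
        exact eT.injective hρ
      · intro y hy
        exact ⟨eT.symm y, Finset.mem_filter.2 ⟨Finset.mem_univ _, by simpa using hy⟩, by simp⟩
    have hres := count_residues n M hMpos R
    obtain ⟨Z, hZ⟩ : ∃ Z : Finset (Fin n),
      Z = univ.filter (fun v : Fin n => (⟨v.val % M, Nat.mod_lt _ hMpos⟩ : Fin M) ∈ R) :=
      ⟨_, rfl⟩
    rw [← hZ] at hres
    have hdisj : Disjoint Z (covered c S) := by
      rw [Finset.disjoint_left]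
      intro v hv
      rw [hZ] at hv
      have h3 := (Finset.mem_filter.1 hv).2
      rw [hR] at h3
      have h4 := (Finset.mem_filter.1 h3).2
      rw [hS'] at h4
      exact hc S v h4
    have hsumn : Z.card + (covered c S).card ≤ n := by
      rw [← Finset.card_union_of_disjoint hdisj]
      have := Finset.card_le_univ (Z ∪ covered c S)
      rwa [Fintype.card_fin] at this
    -- the real inequality
    have hqR : (0 : ℝ) < q := by exact_mod_cast hqpos
    have hsR : (0 : ℝ) < s := by exact_mod_cast hs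
    have hMR : (0 : ℝ) < M := by exact_mod_cast hMpos
    have hrR : (0 : ℝ) < r := by
      have : 0 < r := by omega
      exact_mod_cast this
    have hnR : (0 : ℝ) ≤ n := Nat.cast_nonneg _
    have hnM : (n : ℝ) / (2 * M) ≤ ((n / M : ℕ) : ℝ) := by
      rw [div_le_iff₀ (by positivity)]
      have h3 : n < M * (n / M + 1) := by
        have := Nat.lt_mul_div_succ n hMpos
        simpa using this
      have h4 : 1 ≤ n / M := Nat.div_pos hn hMpos
      have h5 : n ≤ (n / M) * (2 * M) := by nlinarith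
      exact_mod_cast h5
    have hZ1 : (R.card : ℝ) * ((n / M : ℕ) : ℝ) ≤ (Z.card : ℝ) := by exact_mod_cast hres
    rw [hRcard] at hZ1
    have hqlow' : (r : ℝ) ≤ q * (16 * s) := by exact_mod_cast hqlow
    have h1' : (r : ℝ) ≤ (s : ℝ) ^ 2 := by exact_mod_cast h1
    have hS'real : (S'.card : ℝ) ≤ s := by exact_mod_cast hS'card
    have hcard2 : ((q : ℝ) ^ 2) ^ (2 * k + 1) * Real.exp (-(4 * (s : ℝ) / q)) ≤
        ((missedTy (h := k + 1) S').card : ℝ) := by
      refine le_trans (mul_le_mul_of_nonneg_left (Real.exp_le_exp.2 ?_) (by positivity)) hcard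
      rw [neg_le_neg_iff]
      exact div_le_div_of_nonneg_right (by linarith) hqR.le
    have hfin := real_ineq hsR hrR hqR hMR hnR hqlow' h1' hMle
    have hmul : (((q : ℝ) ^ 2) ^ (2 * k + 1) * Real.exp (-(4 * (s : ℝ) / q))) *
        ((n : ℝ) / (2 * M)) ≤ ((missedTy (h := k + 1) S').card : ℝ) * ((n / M : ℕ) : ℝ) :=
      mul_le_mul hcard2 hnM (by positivity) (Nat.cast_nonneg _)
    have hsumR : (Z.card : ℝ) + ((covered c S).card : ℝ) ≤ n := by exact_mod_cast hsumn
    linarith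
  -- conclude
  have hmem : g n r s ∈ {m : ℕ | ∀ c : Sym2 (Fin n) → Fin r, ∃ S : Finset (Fin r), S.card = s ∧
      m ≤ (covered c S).card} := by
    refine Nat.sSup_mem ⟨0, ?_⟩ ⟨n, ?_⟩
    · intro c
      obtain ⟨S, -, hS⟩ := Finset.exists_subset_card_eq (s := (univ : Finset (Fin r))) (n := s)
        (by rw [Finset.card_univ, Fintype.card_fin]; omega)
      exact ⟨S, hS, Nat.zero_le _⟩
    · intro m' hm'
      obtain ⟨S, -, hS⟩ := hm' c
      refine hS.trans ?_
      have := Finset.card_le_univ (covered c S)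
      rwa [Fintype.card_fin] at this
  obtain ⟨S, hS, hle⟩ := hmem c
  exact (Nat.cast_le.2 hle).trans (hmiss S hS)

/-- The bound with explicit constants, for `√r ≤ s ≤ r / 8`. -/
theorem g_le {r s : ℕ} (hs : 1 ≤ s) (h1 : r ≤ s ^ 2) (h2 : 8 * s ≤ r) :
    ∃ n0 : ℕ, ∀ n ≥ n0, (g n r s : ℝ) ≤ (1 - Real.exp (-133 * (s : ℝ) ^ 2 / r)) * n := by
  obtain ⟨q, hq⟩ : ∃ q, q = r / (8 * s) := ⟨_, rfl⟩
  have hqpos : 0 < q := by rw [hq]; exact Nat.div_pos h2 (by omega)
  have hq8 : 8 * s * q ≤ r := by rw [hq]; exact Nat.mul_div_le r (8 * s)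
  have hqup : r < 8 * s * (q + 1) := by
    rw [hq]
    exact Nat.lt_mul_div_succ r (show 0 < 8 * s by omega)
  have hqs : q ≤ s := by
    have h4 : s * (8 * q) ≤ s * s := by nlinarith
    have := Nat.le_of_mul_le_mul_left h4 (by omega)
    omega
  obtain ⟨k, hk⟩ : ∃ k, k = 2 * s / q := ⟨_, rfl⟩
  have hkq : k * q ≤ 2 * s := by
    rw [hk]
    exact Nat.div_mul_le_self _ _
  refine g_le_aux hs (by omega) hqpos hkq hk.ge ?_ ?_ h1
  · calc (2 * k + 1) * (q * q) = 2 * (k * q) * q + q * q := by ring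
      _ ≤ 2 * (2 * s) * q + s * q := Nat.add_le_add
          (Nat.mul_le_mul_right _ (Nat.mul_le_mul_left _ hkq)) (Nat.mul_le_mul_right _ hqs)
      _ ≤ 8 * s * q := by nlinarith
      _ ≤ r := hq8
  · nlinarith

end Pool.Agent.V11134.Cov
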